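import Pool.Agent.W541.DL.Stm

/-! Project DL (MP_cd6101_pr, helper541), part TIGHT. -/

set_option autoImplicit false

namespace Pool.Agent.W155.DL.TIGHT

open MeasureTheory ProbabilityTheory Filter Topology
open Pool.Agent.W541.DL

theorem exists_lower {Ω : Type} [MeasurableSpace Ω] (P : Measure Ω) [IsProbabilityMeasure P]
    (X : Ω → ℝ) (r : ℝ) (hr : r < 1) : ∃ a : ℕ, r ≤ P.real {ω | -(a : ℝ) ≤ X ω} := by
  have hmono : Monotone (fun a : ℕ => {ω | -(a : ℝ) ≤ X ω}) := by
    intro a b hab ω hω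
    have : (a : ℝ) ≤ b := Nat.cast_le.2 hab
    simp only [Set.mem_ofPred_eq] at hω ⊢
    linarith
  have hU : (⋃ a : ℕ, {ω | -(a : ℝ) ≤ X ω}) = Set.univ := by
    rw [Set.eq_univ_iff_forall]
    intro ω
    obtain ⟨a, ha⟩ := exists_nat_ge (-(X ω))
    refine Set.mem_iUnion.2 ⟨a, ?_⟩
    simp only [Set.mem_ofPred_eq]
    linarith
  have h1 := tendsto_measure_iUnion_atTop (μ := P) hmono
  rw [hU, measure_univ] at h1
  have h2 : Tendsto (fun a : ℕ => P.real {ω | -(a : ℝ) ≤ X ω}) atTop (𝓝 1) := by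
    have h3 := (ENNReal.tendsto_toReal ENNReal.one_ne_top).comp h1
    rw [ENNReal.toReal_one] at h3
    exact h3
  obtain ⟨a, ha⟩ := (h2.eventually (lt_mem_nhds hr)).exists
  exact ⟨a, ha.le⟩

theorem int_le {Ω : Type} [MeasurableSpace Ω] (P : Measure Ω) [IsProbabilityMeasure P]
    (f : Ω → ℝ) (A : Set Ω) (h1 : ∀ ω, f ω ≤ 1) (hA : ∀ ω, ω ∉ A → f ω = 0) :
    ∫ ω, f ω ∂P ≤ P.real A := by
  by_cases hf : Integrable f P
  · have h2 : ∫ ω, f ω ∂P ≤ ∫ ω, (toMeasurable P A).indicator (fun _ => (1 : ℝ)) ω ∂P := by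
      refine integral_mono hf ((integrable_const 1).indicator (measurableSet_toMeasurable P A)) ?_
      intro ω
      by_cases hω : ω ∈ toMeasurable P A
      · simpa [Set.indicator_of_mem hω] using h1 ω
      · have h3 := hA ω (fun h => hω (subset_toMeasurable P A h))
        simp [Set.indicator_of_notMem hω, h3]
    rw [integral_indicator (measurableSet_toMeasurable P A)] at h2
    simp only [integral_const, smul_eq_mul, mul_one] at h2
    refine h2.trans (le_of_eq ?_)
    simp [Measure.real]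
  · rw [integral_undef hf]
    exact measureReal_nonneg

theorem main : S_TIGHT := by
  intro Ω' _ P' W Ω _ P S hW hP hS hAS
  have : IsProbabilityMeasure P' := (hW.gauss.hasGaussianLaw ∅).isProbabilityMeasure
  obtain ⟨a, ha⟩ := exists_lower P (S 0 0) (3 / 4) (by norm_num)
  obtain ⟨φ, hφ⟩ : ∃ φ : ℝ → ℝ, φ = fun v : ℝ => max (0 : ℝ) (min 1 (v + (a : ℝ) + 1)) := ⟨_, rfl⟩
  have hφc : Continuous φ := by
    rw [hφ]
    fun_prop
  have hφ1 : ∀ v, φ v ≤ 1 := by
    intro v
    rw [hφ]
    exact max_le zero_le_one (min_le_left _ _)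
  have hφ0 : ∀ v, 0 ≤ φ v := by
    intro v
    rw [hφ]
    exact le_max_left _ _
  have h1 := hAS.2 1 (fun _ => (0, 0)) (fun v => φ (v 0)) (hφc.comp (continuous_apply 0))
    ⟨1, fun v => abs_le.2 ⟨by linarith [hφ0 (v 0)], hφ1 _⟩⟩
  simp only at h1
  have h2 : 3 / 4 ≤ ∫ ω, φ (S 0 0 ω) ∂P := by
    have h3 : MeasurableSet {ω | -(a : ℝ) ≤ S 0 0 ω} := measurableSet_le measurable_const (hS 0 0)
    have h4 : ∫ ω, {ω | -(a : ℝ) ≤ S 0 0 ω}.indicator (fun _ => (1 : ℝ)) ω ∂P ≤
        ∫ ω, φ (S 0 0 ω) ∂P := by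
      refine integral_mono ((integrable_const 1).indicator h3) ?_ ?_
      · refine Integrable.of_bound (hφc.measurable.comp (hS 0 0)).aestronglyMeasurable 1 ?_
        refine Eventually.of_forall fun ω => ?_
        rw [Real.norm_eq_abs]
        exact abs_le.2 ⟨by linarith [hφ0 (S 0 0 ω)], hφ1 _⟩
      · intro ω
        by_cases hω : ω ∈ {ω | -(a : ℝ) ≤ S 0 0 ω}
        · have h5 : φ (S 0 0 ω) = 1 := by
            rw [hφ]
            simp only [Set.mem_ofPred_eq] at hω
            show max (0 : ℝ) (min 1 (S 0 0 ω + (a : ℝ) + 1)) = 1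
            rw [min_eq_left (by linarith), max_eq_right zero_le_one]
          simp only [Set.indicator_of_mem hω, h5, le_refl]
        · simp only [Set.indicator_of_notMem hω]
          exact hφ0 _
    rw [integral_indicator h3] at h4
    simp only [integral_const, smul_eq_mul, mul_one, measureReal_restrict_apply_univ] at h4
    linarith
  have h3 : ∀ᶠ n : ℕ in atTop, 1 / 2 ≤ P'.real {ω | -((a : ℝ) + 1) ≤ preSheet (env W ω) n 0 0} := by
    filter_upwards [h1.eventually (lt_mem_nhds (lt_of_lt_of_le (by norm_num : (1 / 2 : ℝ) < 3 / 4) h2))]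
      with n hn
    refine hn.le.trans ?_
    refine int_le P' _ _ (fun ω => hφ1 _) ?_
    intro ω hω
    simp only [Set.mem_ofPred_eq, not_le] at hω
    rw [hφ]
    have h6 : preSheet (fun k t => W k t ω) n 0 0 < -((a : ℝ) + 1) := hω
    have h7 : min 1 (preSheet (fun k t => W k t ω) n 0 0 + a + 1) ≤ 0 :=
      (min_le_right _ _).trans (by linarith)
    exact max_eq_left h7
  obtain ⟨n₀, hn₀⟩ := eventually_atTop.1 h3
  have h4 : ∀ N : ℕ, ∃ c : ℝ, 0 ≤ c ∧ ∀ m < N, 1 / 2 ≤ P'.real {ω | -c ≤ preSheet (env W ω) m 0 0} := by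
    intro N
    induction N with
    | zero => exact ⟨0, le_refl _, fun m hm => absurd hm (Nat.not_lt_zero m)⟩
    | succ N ih =>
      obtain ⟨c, hc0, hc⟩ := ih
      obtain ⟨b, hb⟩ := exists_lower P' (fun ω => preSheet (env W ω) N 0 0) (1 / 2) (by norm_num)
      refine ⟨max c b, le_max_of_le_left hc0, fun m hm => ?_⟩
      rcases Nat.lt_succ_iff_lt_or_eq.1 hm with h | rfl
      · refine (hc m h).trans (measureReal_mono ?_)
        intro ω hω
        simp only [Set.mem_ofPred_eq] at hω ⊢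
        have := le_max_left c (b : ℝ)
        linarith
      · refine hb.trans (measureReal_mono ?_)
        intro ω hω
        simp only [Set.mem_ofPred_eq] at hω ⊢
        have := le_max_right c (b : ℝ)
        linarith
  obtain ⟨c, hc0, hc⟩ := h4 n₀
  refine ⟨max c (a + 1), le_max_of_le_left hc0, fun m _ => ?_⟩
  rcases lt_or_ge m n₀ with h | h
  · refine (hc m h).trans (measureReal_mono ?_)
    intro ω hω
    simp only [Set.mem_ofPred_eq] at hω ⊢
    have := le_max_left c ((a : ℝ) + 1)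
    linarith
  · refine (hn₀ m h).trans (measureReal_mono ?_)
    intro ω hω
    simp only [Set.mem_ofPred_eq] at hω ⊢
    have := le_max_right c ((a : ℝ) + 1)
    linarith

end Pool.Agent.W155.DL.TIGHT
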